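import Mathlib
import Pool.Agent.Lib_MP_2c424f_ms.M41

/-!
# MP_2c424f_pr: the threshold for the influence of the boundary in boxes of `ℤ^d` is `(2 + o(1)) d`

For `ε d ≤ q ≤ (2 - ε) d` and large `d` the influence of the colours of the boundary on the colour of a vertex of a box of
`ℤ^d` does not decay with the distance.  For `q ≥ (2 + ε) d` it decays.
-/

set_option autoImplicit false

open Finset Filter

namespace Pool.Agent.Results.MP_2c424f_pr.BoundaryThreshold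

open Pool.Agent.QC (Bx bd BG Proper cnt)

/-- some proper `q`-colouring of the box `{0, …, n}^d` has the colours `σ x` at all vertices `x` at a
distance at least `r` from the vertex `w` -/
def Feas {d n q : ℕ} (w : Bx d n) (r : ℕ) (σ : Bx d n → Fin q) : Prop :=
  0 < cnt (fun f : Bx d n → Fin q => Proper (BG d n) f ∧ ∀ x, r ≤ bd w x → f x = σ x)

/-- the conditional probability that the vertex `w` has the colour `b`, for a uniformly random proper
`q`-colouring of the box `{0, …, n}^d`, given that every vertex `x` at a distance at least `r` from `w` has the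
colour `σ x` -/
noncomputable def condPr {d n q : ℕ} (w : Bx d n) (r : ℕ) (σ : Bx d n → Fin q) (b : Fin q) : ℝ :=
  (cnt (fun f : Bx d n → Fin q => Proper (BG d n) f ∧ (∀ x, r ≤ bd w x → f x = σ x) ∧ f w = b) : ℝ) /
    cnt (fun f : Bx d n → Fin q => Proper (BG d n) f ∧ ∀ x, r ≤ bd w x → f x = σ x)

/-- the ball of radius `r` around the vertex `w` of `ℤ^d` lies in the box `{0, …, n}^d` -/
def Inside {d n : ℕ} (w : Bx d n) (r : ℕ) : Prop := ∀ i, r ≤ (w i).val ∧ (w i).val + r ≤ n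

/-- The influence of the boundary does not decay: there is `δ > 0` such that for every distance `r ≥ 1` there are
a box of `ℤ^d`, a vertex `w` whose ball of radius `r` lies in the box, and a feasible prescription `σ` of the colours of all
vertices at a distance at least `r` from `w`, given which the probability of some colour at `w` differs from `1/q` by at
least `δ`. -/
def Influence (d q : ℕ) : Prop :=
  ∃ δ : ℝ, 0 < δ ∧ ∀ r : ℕ, 1 ≤ r → ∃ (n : ℕ) (w : Bx d n) (σ : Bx d n → Fin q) (b : Fin q),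
    Inside w r ∧ Feas w r σ ∧ δ ≤ |condPr w r σ b - 1 / q|

/-- the largest number of colours for which the influence of the boundary does not decay (`0` if there is no
largest one) -/
noncomputable def qInfl (d : ℕ) : ℕ := sSup {q : ℕ | Influence d q}

/-- abstract form of the two limits -/
private theorem lim_two (S : ℕ → Set ℕ) (h : ∀ ε : ℝ, 0 < ε → ∃ d₀ : ℕ, ∀ d : ℕ, d₀ ≤ d → ∀ q : ℕ,
    (ε * d ≤ q → (q : ℝ) ≤ (2 - ε) * d → q ∈ S d) ∧ ((2 + ε) * d ≤ q → q ∉ S d)) :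
    Tendsto (fun d : ℕ => ((sSup (S d) : ℕ) : ℝ) / d) atTop (nhds 2) := by
  rw [Metric.tendsto_atTop]
  intro η hη
  obtain ⟨ε, hε, hε1, hεη⟩ : ∃ ε : ℝ, 0 < ε ∧ ε ≤ 1 / 2 ∧ 2 * ε < η :=
    ⟨min (1 / 2) (η / 4), lt_min (by norm_num) (by positivity), min_le_left _ _, by
      have := min_le_right (1 / 2 : ℝ) (η / 4)
      linarith⟩
  obtain ⟨d₀, h0⟩ := h ε hε
  refine ⟨max d₀ (⌈1 / ε⌉₊ + 2), fun d hd => ?_⟩
  have hd0 : d₀ ≤ d := (le_max_left _ _).trans hd
  have hd1 : (⌈1 / ε⌉₊ : ℝ) + 2 ≤ d := by exact_mod_cast (le_max_right _ _).trans hd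
  have hd2 : 1 / ε ≤ d := by
    have := Nat.le_ceil (1 / ε)
    linarith
  have hd3 : 1 ≤ ε * d := by
    rw [div_le_iff₀ hε] at hd2
    linarith
  have hc0 : (0 : ℝ) ≤ (⌈1 / ε⌉₊ : ℝ) := Nat.cast_nonneg _
  have hd4 : (2 : ℝ) ≤ d := by linarith
  have hd5 : (0 : ℝ) < d := by linarith
  have hb : ∀ q ∈ S d, (q : ℝ) < (2 + ε) * d := by
    intro q hq
    by_contra hcon
    exact (h0 d hd0 q).2 (not_lt.1 hcon) hq
  have hbdd : BddAbove (S d) := by
    refine ⟨⌈(2 + ε) * d⌉₊, fun q hq => ?_⟩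
    have h1 := (hb q hq).le.trans (Nat.le_ceil _)
    exact_mod_cast h1
  have hfl : (⌊(2 - ε) * d⌋₊ : ℝ) ≤ (2 - ε) * d := Nat.floor_le (by nlinarith)
  have hfl2 : (2 - ε) * d < (⌊(2 - ε) * d⌋₊ : ℝ) + 1 := Nat.lt_floor_add_one _
  have hmem : ⌊(2 - ε) * d⌋₊ ∈ S d := (h0 d hd0 _).1 (by nlinarith) hfl
  have hlow : (⌊(2 - ε) * d⌋₊ : ℝ) ≤ ((sSup (S d) : ℕ) : ℝ) := by exact_mod_cast le_csSup hbdd hmem
  have hup : ((sSup (S d) : ℕ) : ℝ) < (2 + ε) * d := hb _ (Nat.sSup_mem ⟨_, hmem⟩ hbdd)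
  rw [Real.dist_eq, abs_lt]
  constructor
  · have : 2 - 2 * ε < ((sSup (S d) : ℕ) : ℝ) / d := by
      rw [lt_div_iff₀ hd5]
      nlinarith
    linarith
  · have : ((sSup (S d) : ℕ) : ℝ) / d < 2 + ε := by
      rw [div_lt_iff₀ hd5]
      exact hup
    linarith

/-- (1) For every `ε > 0` there is `m₁ > 0` such that for every `η > 0` and all large `d` and all `q` with
`ε d ≤ q ≤ (2 - ε) d` there is `m ≥ m₁` with `m = tanh (2 d m / q)` such that for every distance `r ≥ 1` there are a box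
`{0, …, n}^d`, a vertex `w` whose ball of radius `r` lies in the box, a feasible prescription `σ` of the colours of all
vertices at a distance at least `r` from `w` and a colour `b` with `P(f w = b | σ) ≥ (1 + m² - η)/q`.
(2) The largest number `qInfl d` of colours for which the influence of the boundary does not decay satisfies
`qInfl d / d → 2`. -/
theorem result : (∀ ε : ℝ, 0 < ε → ∃ m₁ : ℝ, 0 < m₁ ∧ ∀ η : ℝ, 0 < η → ∃ d₀ : ℕ, ∀ d : ℕ, d₀ ≤ d → ∀ q : ℕ,
      ε * d ≤ q → (q : ℝ) ≤ (2 - ε) * d → ∃ m : ℝ, m₁ ≤ m ∧ m = Real.tanh (2 * d * m / q) ∧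
        ∀ r : ℕ, 1 ≤ r → ∃ (n : ℕ) (w : Bx d n) (σ : Bx d n → Fin q) (b : Fin q),
          Inside w r ∧ Feas w r σ ∧ (1 + m ^ 2 - η) / q ≤ condPr w r σ b) ∧
    Tendsto (fun d : ℕ => (qInfl d : ℝ) / d) atTop (nhds 2) := by
  classical
  refine ⟨fun ε hε => THR.main_box ε hε, ?_⟩
  refine lim_two (fun d => {q : ℕ | Influence d q}) fun ε hε => ?_
  obtain ⟨m₁, hm₁, key⟩ := THR.main_box ε hε
  obtain ⟨d₁, h3⟩ := key (m₁ ^ 2 / 2) (by positivity)
  obtain ⟨d₂, h4⟩ := QC.main_cond hε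
  refine ⟨max (max d₁ d₂) 1, fun d hd q => ?_⟩
  have hd1 : d₁ ≤ d := ((le_max_left _ _).trans (le_max_left _ _)).trans hd
  have hd2 : d₂ ≤ d := ((le_max_right _ _).trans (le_max_left _ _)).trans hd
  have hd4 : (1 : ℝ) ≤ d := by exact_mod_cast (le_max_right _ _).trans hd
  refine ⟨fun hq1 hq2 => ?_, fun hq => ?_⟩
  · obtain ⟨m, hm, hmt, hr⟩ := h3 d hd1 q hq1 hq2
    have hq0 : (0 : ℝ) < q := lt_of_lt_of_le (by positivity) hq1
    have h5 : m₁ ^ 2 ≤ m ^ 2 := pow_le_pow_left₀ hm₁.le hm 2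
    refine ⟨m₁ ^ 2 / 2 / q, by positivity, fun r hr1 => ?_⟩
    obtain ⟨n, w, σ, b, hin, hf, hb⟩ := hr r hr1
    refine ⟨n, w, σ, b, hin, hf, le_trans ?_ (le_abs_self _)⟩
    have h6 : (1 + m₁ ^ 2 / 2) / q ≤ (1 + m ^ 2 - m₁ ^ 2 / 2) / q := by
      apply div_le_div_of_nonneg_right _ hq0.le
      linarith
    have h7 : (1 + m₁ ^ 2 / 2) / (q : ℝ) = 1 / q + m₁ ^ 2 / 2 / q := by ring
    have h8 : (1 + m ^ 2 - m₁ ^ 2 / 2) / q ≤ condPr w r σ b := hb
    linarith
  · rintro ⟨δ, hδ, hI⟩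
    obtain ⟨A, c, hc, h5⟩ := h4 d hd2 q hq
    have ht : Tendsto (fun r : ℕ => A * Real.exp (-(c * r))) atTop (nhds (A * 0)) := by
      apply Tendsto.const_mul
      apply Real.tendsto_exp_neg_atTop_nhds_zero.comp
      exact tendsto_natCast_atTop_atTop.const_mul_atTop hc
    rw [mul_zero] at ht
    obtain ⟨r, hr1, hr2⟩ := ((ht.eventually_lt_const hδ).and (eventually_ge_atTop 1)).exists
    obtain ⟨n, w, σ, b, -, hf, hb⟩ := hI r hr2
    have h6 := h5 n {x | r ≤ bd w x} σ w r (fun x hx => hx) hf b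
    exact absurd (lt_of_le_of_lt (hb.trans h6) hr1) (lt_irrefl _)

end Pool.Agent.Results.MP_2c424f_pr.BoundaryThreshold
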