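import Mathlib
import Pool.Agent.Lib_MP_2c424f_m.M46

/-!
# MP_2c424f_pr: `q_c(d)` grows linearly
-/

set_option autoImplicit false

namespace Pool.Agent.Results.MP_2c424f_pr.LinearGrowth

open Pool.Agent.QC

/-- `q_c(d)` grows linearly: for all large `d`, `d / 1000 ≤ q_c(d) ≤ 3 d`.  In detail: for every even `q` with
`d / 1000 ≤ q ≤ d / 500` the uniform proper `q`-colouring of the boxes of `ℤ^d` has long-range order, i.e.
`D_{q,d}(L)` does not tend to `0` as `L → ∞`. -/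
theorem result : ∃ d₀ : ℕ, ∀ d : ℕ, d₀ ≤ d →
    (d : ℝ) / 1000 ≤ (qc d : ℝ) ∧ (qc d : ℝ) ≤ 3 * d ∧
    ∀ q : ℕ, Even q → (d : ℝ) / 1000 ≤ q → (q : ℝ) ≤ d / 500 → LRO q d := by
  obtain ⟨d₁, h1⟩ := Pool.Agent.LC.qc_lin
  obtain ⟨d₂, h2⟩ := Pool.Agent.LC.lro
  refine ⟨max d₁ d₂, fun d hd => ⟨?_, ?_, ?_⟩⟩
  · exact (h1 d ((le_max_left _ _).trans hd)).1
  · exact (h1 d ((le_max_left _ _).trans hd)).2
  · intro q hq hl hu
    refine h2 d q ((le_max_right _ _).trans hd) ⟨hq, ?_, ?_⟩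
    · have h3 : (1000 * q : ℝ) ≤ 2 * d := by linarith
      exact_mod_cast h3
    · have h3 : (2 * d : ℝ) ≤ 2000 * q := by linarith
      exact_mod_cast h3

end Pool.Agent.Results.MP_2c424f_pr.LinearGrowth
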