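import Mathlib
import Pool.Agent.Lib_MP_2c424f_ms.M39
import Pool.Agent.Lib_MP_2c424f_ms.M40

/-!
# MP_2c424f_pr: the critical number of colours of the torus is `(2 + o(1)) d`

For `ε d ≤ q ≤ (2 - ε) d` and large `d` the uniform proper `q`-colouring of the torus `(ℤ/2^n)^d` has long-range
order, with the mean-field value of the two-point function.  For `q ≥ (2 + ε) d` the correlations decay.
-/

set_option autoImplicit false

open Finset Filter

namespace Pool.Agent.Results.MP_2c424f_pr.SharpThreshold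

/-- `f` is a proper `q`-colouring of the torus `(ℤ/m)^d`: the sites `x` and `x + e_i` have different
colours, for every site `x` and every coordinate direction `i` -/
def TorusProper {d m q : ℕ} (f : (Fin d → ZMod m) → Fin q) : Prop :=
  ∀ (x : Fin d → ZMod m) (i : Fin d), f (Function.update x i (x i + 1)) ≠ f x

/-- `P(f x = f y)` for a uniformly random proper `q`-colouring `f` of the torus `(ℤ/m)^d`: the number of
the proper colourings with `f x = f y`, divided by the number of all proper colourings -/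
noncomputable def torusPr (d m q : ℕ) (x y : Fin d → ZMod m) : ℝ :=
  ({f : (Fin d → ZMod m) → Fin q | TorusProper f ∧ f x = f y}.ncard : ℝ) /
    ({f : (Fin d → ZMod m) → Fin q | TorusProper f}.ncard : ℝ)

/-- the sites `x` and `y` have the same parity (`m` even): the sum of all their coordinates, represented in
`{0, …, m-1}`, is even -/
def SameParity {d m : ℕ} (x y : Fin d → ZMod m) : Prop := Even (∑ i, (x i).val + ∑ i, (y i).val)

/-- `x` and `y` are neighbours in the torus -/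
def TorusAdj {d m : ℕ} (x y : Fin d → ZMod m) : Prop :=
  ∃ i : Fin d, y = Function.update x i (x i + 1) ∨ x = Function.update y i (y i + 1)

/-- `D_{q,d}` for the torus of side `2^n`: `P(f(0, …, 0) = f(2^(n-1), …, 2^(n-1))) - 1/q` -/
noncomputable def Dt (q d n : ℕ) : ℝ :=
  torusPr d (2 ^ n) q (fun _ => 0) (fun _ => ((2 ^ (n - 1) : ℕ) : ZMod (2 ^ n))) - 1 / q

/-- long-range order on tori: the correlation of antipodal sites does not tend to `0` -/
def LROt (q d : ℕ) : Prop := ¬ Tendsto (fun n : ℕ => Dt q d n) atTop (nhds 0)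

/-- the largest number of colours for which long-range order holds on tori (`0` if there is no largest one) -/
noncomputable def qTorus (d : ℕ) : ℕ := sSup {q : ℕ | LROt q d}

open Pool.Agent.LO Pool.Agent.LIN

private theorem step_back {d k : ℕ} (x : Site d k) (σ : Stp d) : x + sv σ + sv (σ.1, !σ.2) = x := by
  rw [add_assoc]
  have h : (sv σ : Site d k) + sv (σ.1, !σ.2) = 0 := by
    unfold sv
    rw [← Pi.single_add]
    obtain ⟨j, b⟩ := σ
    cases b <;> simp
  rw [h, add_zero]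

private theorem mem_prps {d k q : ℕ} (f : Site d k → Fin q) : f ∈ prps d k q ↔ Prp f := by
  classical
  unfold prps
  rw [mem_filter]
  simp only [mem_univ, true_and]

private theorem upd_eq {d k : ℕ} (x : Site d k) (i : Fin d) :
    Function.update x i (x i + 1) = x + sv (i, true) := by
  funext j
  by_cases hj : j = i
  · subst hj
    simp [sv]
  · simp [sv, hj]

private theorem proper_iff {d k q : ℕ} (f : Site d k → Fin q) : TorusProper f ↔ Prp f := by
  constructor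
  · rintro h x ⟨i, b⟩
    cases b with
    | true =>
      have := h x i
      rw [upd_eq] at this
      exact this
    | false =>
      have h1 := h (x + sv (i, false)) i
      rw [upd_eq] at h1
      have h2 := step_back x (i, false)
      simp only [Bool.not_false] at h2
      rw [h2] at h1
      exact h1.symm
  · intro h x i
    rw [upd_eq]
    exact h x (i, true)

private theorem par_iff {d k : ℕ} (x y : Site d k) : SameParity x y ↔ (evn x ↔ evn y) := by
  unfold SameParity evn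
  exact Nat.even_add

private theorem adj_of {d k : ℕ} (x y : Site d k) (σ : Stp d) (h : x + sv σ = y) : TorusAdj x y := by
  obtain ⟨i, b⟩ := σ
  cases b with
  | true => exact ⟨i, Or.inl (by rw [upd_eq]; exact h.symm)⟩
  | false =>
    refine ⟨i, Or.inr ?_⟩
    have h2 := step_back x (i, false)
    simp only [Bool.not_false] at h2
    rw [upd_eq, ← h, h2]

private theorem num_eq {d k q : ℕ} (x y : Site d k) [DecidablePred fun f : Site d k → Fin q => f x = f y] :
    ({f : Site d k → Fin q | TorusProper f ∧ f x = f y}.ncard : ℝ) =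
      (((prps d k q).filter fun f => f x = f y).card : ℝ) := by
  rw [← Set.ncard_coe_finset]
  congr 2
  ext f
  simp only [coe_filter, mem_prps, proper_iff, Set.mem_ofPred_eq]

private theorem den_eq (d k q : ℕ) :
    ({f : Site d k → Fin q | TorusProper f}.ncard : ℝ) = ZZ d k q := by
  unfold ZZ
  rw [← Set.ncard_coe_finset]
  congr 2
  ext f
  simp only [mem_coe, mem_prps, proper_iff, Set.mem_ofPred_eq]

private theorem pr_eq {d k q : ℕ} (x y : Site d k) [DecidablePred fun f : Site d k → Fin q => f x = f y] :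
    torusPr d (2 ^ k) q x y = (((prps d k q).filter fun f => f x = f y).card : ℝ) / ZZ d k q := by
  unfold torusPr
  rw [den_eq, num_eq]

/-- abstract form of the two limits -/
private theorem lim_two (S : ℕ → Set ℕ) (h : ∀ ε : ℝ, 0 < ε → ∃ d₀ : ℕ, ∀ d : ℕ, d₀ ≤ d → ∀ q : ℕ,
    (ε * d ≤ q → (q : ℝ) ≤ (2 - ε) * d → q ∈ S d) ∧ ((2 + ε) * d ≤ q → q ∉ S d)) :
    Tendsto (fun d : ℕ => ((sSup (S d) : ℕ) : ℝ) / d) atTop (nhds 2) := by
  rw [Metric.tendsto_atTop]
  intro η hη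
  obtain ⟨ε, hε, hε1, hεη⟩ : ∃ ε : ℝ, 0 < ε ∧ ε ≤ 1 / 2 ∧ 2 * ε < η :=
    ⟨min (1 / 2) (η / 4), lt_min (by norm_num) (by positivity), min_le_left _ _, by
      have := min_le_right (1 / 2 : ℝ) (η / 4)
      linarith⟩
  obtain ⟨d₀, h0⟩ := h ε hε
  refine ⟨max d₀ (⌈1 / ε⌉₊ + 2), fun d hd => ?_⟩
  have hd0 : d₀ ≤ d := (le_max_left _ _).trans hd
  have hd1 : (⌈1 / ε⌉₊ : ℝ) + 2 ≤ d := by exact_mod_cast (le_max_right _ _).trans hd
  have hd2 : 1 / ε ≤ d := by
    have := Nat.le_ceil (1 / ε)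
    linarith
  have hd3 : 1 ≤ ε * d := by
    rw [div_le_iff₀ hε] at hd2
    linarith
  have hc0 : (0 : ℝ) ≤ (⌈1 / ε⌉₊ : ℝ) := Nat.cast_nonneg _
  have hd4 : (2 : ℝ) ≤ d := by linarith
  have hd5 : (0 : ℝ) < d := by linarith
  have hb : ∀ q ∈ S d, (q : ℝ) < (2 + ε) * d := by
    intro q hq
    by_contra hcon
    exact (h0 d hd0 q).2 (not_lt.1 hcon) hq
  have hbdd : BddAbove (S d) := by
    refine ⟨⌈(2 + ε) * d⌉₊, fun q hq => ?_⟩
    have h1 := (hb q hq).le.trans (Nat.le_ceil _)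
    exact_mod_cast h1
  have hfl : (⌊(2 - ε) * d⌋₊ : ℝ) ≤ (2 - ε) * d := Nat.floor_le (by nlinarith)
  have hfl2 : (2 - ε) * d < (⌊(2 - ε) * d⌋₊ : ℝ) + 1 := Nat.lt_floor_add_one _
  have hmem : ⌊(2 - ε) * d⌋₊ ∈ S d := (h0 d hd0 _).1 (by nlinarith) hfl
  have hlow : (⌊(2 - ε) * d⌋₊ : ℝ) ≤ ((sSup (S d) : ℕ) : ℝ) := by exact_mod_cast le_csSup hbdd hmem
  have hup : ((sSup (S d) : ℕ) : ℝ) < (2 + ε) * d := hb _ (Nat.sSup_mem ⟨_, hmem⟩ hbdd)
  rw [Real.dist_eq, abs_lt]
  constructor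
  · have : 2 - 2 * ε < ((sSup (S d) : ℕ) : ℝ) / d := by
      rw [lt_div_iff₀ hd5]
      nlinarith
    linarith
  · have : ((sSup (S d) : ℕ) : ℝ) / d < 2 + ε := by
      rw [div_lt_iff₀ hd5]
      exact hup
    linarith

/-- For every `ε > 0`:
(1) there is `m₁ > 0` such that for every `η > 0` and all large `d` and all `q` with `ε d ≤ q ≤ (2 - ε) d` there is
`m ∈ [m₁, 1)` with `m = tanh (2 d m / q)` such that for all large `n` and any two different sites `x, y` of the torus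
`(ℤ/2^n)^d`, at any distance, `q P(f x = f y)` differs by at most `η` from `1 + m²` if they have the same parity, and from
`1 - m²` if they have different parity and are not neighbours;
(2) for all large `d` and all `q ≥ (2 + ε) d` the correlation `P(f x = f y) - 1/q` of antipodal sites of the torus of side
`2^n` is exponentially small in `2^n`.
(3) So the largest number `qTorus d` of colours with long-range order on tori satisfies `qTorus d / d → 2`. -/
theorem result : (∀ ε : ℝ, 0 < ε →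
    (∃ m₁ : ℝ, 0 < m₁ ∧ ∀ η : ℝ, 0 < η → ∃ d₀ : ℕ, ∀ d : ℕ, d₀ ≤ d → ∀ q : ℕ, ε * d ≤ q → (q : ℝ) ≤ (2 - ε) * d →
      ∃ m : ℝ, m₁ ≤ m ∧ m < 1 ∧ m = Real.tanh (2 * d * m / q) ∧
        ∃ n₀ : ℕ, ∀ n : ℕ, n₀ ≤ n → ∀ x y : Fin d → ZMod (2 ^ n), x ≠ y →
          (SameParity x y → |q * torusPr d (2 ^ n) q x y - (1 + m ^ 2)| ≤ η) ∧
          (¬ SameParity x y → ¬ TorusAdj x y → |q * torusPr d (2 ^ n) q x y - (1 - m ^ 2)| ≤ η)) ∧
    ∃ d₀ : ℕ, ∀ d : ℕ, d₀ ≤ d → ∀ q : ℕ, (2 + ε) * d ≤ q →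
      ∃ A c : ℝ, 0 < c ∧ ∀ n : ℕ, |Dt q d n| ≤ A * Real.exp (-(c * 2 ^ n))) ∧
    Tendsto (fun d : ℕ => (qTorus d : ℝ) / d) atTop (nhds 2) := by
  classical
  have main1 : ∀ ε : ℝ, 0 < ε → ∃ m₁ : ℝ, 0 < m₁ ∧ ∀ η : ℝ, 0 < η → ∃ d₀ : ℕ, ∀ d : ℕ, d₀ ≤ d → ∀ q : ℕ,
      ε * d ≤ q → (q : ℝ) ≤ (2 - ε) * d →
      ∃ m : ℝ, m₁ ≤ m ∧ m < 1 ∧ m = Real.tanh (2 * d * m / q) ∧
        ∃ n₀ : ℕ, ∀ n : ℕ, n₀ ≤ n → ∀ x y : Fin d → ZMod (2 ^ n), x ≠ y →
          (SameParity x y → |q * torusPr d (2 ^ n) q x y - (1 + m ^ 2)| ≤ η) ∧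
          (¬ SameParity x y → ¬ TorusAdj x y → |q * torusPr d (2 ^ n) q x y - (1 - m ^ 2)| ≤ η) := by
    intro ε hε
    obtain ⟨m₁, hm₁, h1⟩ := THR.main_tori ε hε
    refine ⟨m₁, hm₁, fun η hη => ?_⟩
    obtain ⟨d₁, h1⟩ := h1 η hη
    refine ⟨d₁, fun d hd q hq1 hq2 => ?_⟩
    obtain ⟨m, hm, hm', hmt, k₀, hk⟩ := h1 d hd q hq1 hq2
    refine ⟨m, hm, hm', hmt, k₀, fun n hn x y hxy => ?_⟩
    obtain ⟨ha', hb'⟩ := hk n hn x y hxy
    refine ⟨fun hp => ?_, fun hp hadj => ?_⟩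
    · have h4 := ha' ((par_iff x y).1 hp)
      rw [pr_eq]
      exact h4
    · have h4 := hb' (fun h => hp ((par_iff x y).2 h)) (fun σ hσ => hadj (adj_of x y σ hσ))
      rw [pr_eq]
      exact h4
  have main2 : ∀ ε : ℝ, 0 < ε → ∃ d₀ : ℕ, ∀ d : ℕ, d₀ ≤ d → ∀ q : ℕ,
      ε * d ≤ q → (q : ℝ) ≤ (2 - ε) * d → LROt q d := by
    intro ε hε
    obtain ⟨m₁, hm₁, key⟩ := main1 ε hε
    obtain ⟨d₁, h3⟩ := key (m₁ ^ 2 / 2) (by positivity)
    refine ⟨max d₁ 1, fun d hd q hq1 hq2 => ?_⟩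
    have hd1 : d₁ ≤ d := (le_max_left _ _).trans hd
    have hd4' : 1 ≤ d := (le_max_right _ _).trans hd
    have hd4 : (1 : ℝ) ≤ d := by exact_mod_cast hd4'
    obtain ⟨m, hm, hm', hmt, n₀, hn⟩ := h3 d hd1 q hq1 hq2
    have hq0 : (0 : ℝ) < q := lt_of_lt_of_le (by positivity) hq1
    have h5 : m₁ ^ 2 ≤ m ^ 2 := pow_le_pow_left₀ hm₁.le hm 2
    intro ht
    have hev := ht.eventually_lt_const (show (0 : ℝ) < m₁ ^ 2 / 2 / q by positivity)
    obtain ⟨n, hn1, hn2⟩ := (hev.and (eventually_ge_atTop (max n₀ 2))).exists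
    have hn3 : n₀ ≤ n := (le_max_left _ _).trans hn2
    have hn4 : 2 ≤ n := (le_max_right _ _).trans hn2
    have hval : (((2 ^ (n - 1) : ℕ) : ZMod (2 ^ n))).val = 2 ^ (n - 1) := by
      rw [ZMod.val_natCast, Nat.mod_eq_of_lt (Nat.pow_lt_pow_right (by norm_num) (by omega))]
    have hne : (fun _ => 0 : Fin d → ZMod (2 ^ n)) ≠ fun _ => ((2 ^ (n - 1) : ℕ) : ZMod (2 ^ n)) := by
      intro h
      have h6 := congrArg ZMod.val (congrFun h ⟨0, hd4'⟩)
      rw [hval, ZMod.val_zero] at h6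
      exact absurd h6 (by positivity)
    have hpar : SameParity (fun _ => 0 : Fin d → ZMod (2 ^ n)) (fun _ => ((2 ^ (n - 1) : ℕ) : ZMod (2 ^ n))) := by
      unfold SameParity
      simp only [hval, ZMod.val_zero, Finset.sum_const, Finset.card_univ, Fintype.card_fin, smul_eq_mul,
        mul_zero, zero_add]
      obtain ⟨n', rfl⟩ : ∃ n', n = n' + 2 := ⟨n - 2, by omega⟩
      refine Even.mul_left ?_ _
      rw [show n' + 2 - 1 = n' + 1 by omega, pow_succ]
      exact even_iff_two_dvd.2 (dvd_mul_left _ _)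
    have h6 := (hn n hn3 _ _ hne).1 hpar
    rw [abs_le] at h6
    have h7 : (1 + m₁ ^ 2 / 2) / q ≤ torusPr d (2 ^ n) q (fun _ => 0) (fun _ => ((2 ^ (n - 1) : ℕ) : ZMod (2 ^ n))) := by
      rw [div_le_iff₀ hq0]
      nlinarith [h6.1]
    have h8 : (1 + m₁ ^ 2 / 2) / (q : ℝ) = 1 / q + m₁ ^ 2 / 2 / q := by ring
    unfold Dt at hn1
    linarith
  have main3 : ∀ ε : ℝ, 0 < ε → ∃ d₀ : ℕ, ∀ d : ℕ, d₀ ≤ d → ∀ q : ℕ, (2 + ε) * d ≤ q →
      ∃ A c : ℝ, 0 < c ∧ ∀ n : ℕ, |Dt q d n| ≤ A * Real.exp (-(c * 2 ^ n)) := by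
    intro ε hε
    obtain ⟨d₃, h5⟩ := THR.torus_decay hε
    refine ⟨max d₃ 1, fun d hd q hq => ?_⟩
    have hd3 : d₃ ≤ d := (le_max_left _ _).trans hd
    have hd4' : 1 ≤ d := (le_max_right _ _).trans hd
    have hd4 : (1 : ℝ) ≤ d := by exact_mod_cast hd4'
    obtain ⟨A, c, hc, h6⟩ := h5 d hd3 q hq
    have hq0 : (1 : ℝ) ≤ q := by nlinarith
    refine ⟨max (|A| * Real.exp (3 * c)) (Real.exp (2 * c)), c / 4, by positivity, fun n => ?_⟩
    have hpr : ∀ x y : Site d n, 0 ≤ torusPr d (2 ^ n) q x y ∧ torusPr d (2 ^ n) q x y ≤ 1 := by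
      intro x y
      rw [pr_eq]
      refine ⟨by unfold ZZ; positivity, ?_⟩
      unfold ZZ
      apply div_le_one_of_le₀ _ (Nat.cast_nonneg _)
      exact_mod_cast Finset.card_le_card (Finset.filter_subset _ _)
    rcases Nat.lt_or_ge (2 ^ n) 8 with h8 | h8
    · have h7 : |Dt q d n| ≤ 1 := by
        unfold Dt
        obtain ⟨g1, g2⟩ := hpr (fun _ => 0) (fun _ => ((2 ^ (n - 1) : ℕ) : ZMod (2 ^ n)))
        have g3 : 1 / (q : ℝ) ≤ 1 := by rw [div_le_one (by linarith)]; exact hq0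
        have g4 : 0 ≤ 1 / (q : ℝ) := by positivity
        rw [abs_le]
        constructor <;> linarith
      have h9 : (2 : ℝ) ^ n ≤ 8 := by exact_mod_cast h8.le
      calc |Dt q d n| ≤ Real.exp (2 * c) * Real.exp (-(2 * c)) := by
            rw [← Real.exp_add]; simpa using h7
        _ ≤ max (|A| * Real.exp (3 * c)) (Real.exp (2 * c)) * Real.exp (-(c / 4 * 2 ^ n)) := by
            apply mul_le_mul (le_max_right _ _) _ (Real.exp_pos _).le
              (le_trans (Real.exp_pos _).le (le_max_right _ _))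
            apply Real.exp_le_exp.2
            nlinarith
    · have h9 := h6 n ((2 ^ n - 8) / 4) (by omega) (fun _ => 0)
      have e1 : Dt q d n = (((prps d n q).filter fun f => f (fun _ => 0) = f ((fun _ => 0) + THR.anti d n)).card : ℝ) /
          ZZ d n q - 1 / q := by
        unfold Dt
        rw [show (fun _ => ((2 ^ (n - 1) : ℕ) : ZMod (2 ^ n)) : Fin d → ZMod (2 ^ n)) =
          (fun _ => 0) + THR.anti d n by funext i; simp [THR.anti], pr_eq]
      rw [← e1] at h9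
      have h10 : (2 : ℝ) ^ n / 4 - 3 ≤ (((2 ^ n - 8) / 4 : ℕ) : ℝ) := by
        have : 2 ^ n ≤ 4 * ((2 ^ n - 8) / 4) + 12 := by omega
        have h11 : (2 : ℝ) ^ n ≤ 4 * (((2 ^ n - 8) / 4 : ℕ) : ℝ) + 12 := by exact_mod_cast this
        linarith
      calc |Dt q d n| ≤ A * Real.exp (-(c * (((2 ^ n - 8) / 4 : ℕ) : ℝ))) := h9
        _ ≤ |A| * Real.exp (3 * c - c / 4 * 2 ^ n) := by
            apply mul_le_mul (le_abs_self _) _ (Real.exp_pos _).le (abs_nonneg _)
            apply Real.exp_le_exp.2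
            nlinarith
        _ = (|A| * Real.exp (3 * c)) * Real.exp (-(c / 4 * 2 ^ n)) := by
            rw [mul_assoc, ← Real.exp_add]; congr 2
        _ ≤ _ := mul_le_mul_of_nonneg_right (le_max_left _ _) (Real.exp_pos _).le
  refine ⟨fun ε hε => ⟨main1 ε hε, main3 ε hε⟩, ?_⟩
  refine lim_two (fun d => {q : ℕ | LROt q d}) fun ε hε => ?_
  obtain ⟨d₁, h1⟩ := main2 ε hε
  obtain ⟨d₂, h2⟩ := main3 ε hε
  refine ⟨max d₁ d₂, fun d hd q => ⟨fun h3 h4 => h1 d ((le_max_left _ _).trans hd) q h3 h4, fun h3 h4 => ?_⟩⟩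
  obtain ⟨A, c, hc, h5⟩ := h2 d ((le_max_right _ _).trans hd) q h3
  apply h4
  rw [tendsto_zero_iff_abs_tendsto_zero]
  refine squeeze_zero (fun n => abs_nonneg _) h5 ?_
  have ht : Tendsto (fun n : ℕ => A * Real.exp (-(c * 2 ^ n))) atTop (nhds (A * 0)) := by
    apply Tendsto.const_mul
    apply Real.tendsto_exp_neg_atTop_nhds_zero.comp
    exact (tendsto_pow_atTop_atTop_of_one_lt (by norm_num : (1 : ℝ) < 2)).const_mul_atTop hc
  rw [mul_zero] at ht
  exact ht

end Pool.Agent.Results.MP_2c424f_pr.SharpThreshold
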