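import Pool.Agent.Lib_MP_2c424f_pr.LIM
import Pool.Agent.Lib_MP_2c424f_pr.CND

/-!
# MP_2c424f_pr: `limsup q_c(d) / d ≤ 2`
-/

set_option autoImplicit false

namespace Pool.Agent.Results.MP_2c424f_pr.UpperBoundTwo

open Pool.Agent.QC

/-- For every `ε > 0` and all large `d`: `q_c(d) ≤ (2 + ε) d`, and for every `q ≥ (2 + ε) d` uniform
proper `q`-colourings of the boxes of `ℤ^d` are disordered: the corner correlation `D_{q,d}(n+1)`
tends to `0` exponentially fast in `n`, the correlation of any two vertices of any box decays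
exponentially in their distance (uniformly in the box), and the law of the colour of a vertex `w`,
given any feasible prescription `σ` of the colours on any set `Q` of vertices at a distance at least
`r` from `w`, is exponentially close in `r` to the uniform law. -/
theorem result : ∀ ε : ℝ, 0 < ε → ∃ d₀ : ℕ, ∀ d : ℕ, d₀ ≤ d →
    (qc d : ℝ) ≤ (2 + ε) * d ∧
    (∀ q : ℕ, LRO q d → (q : ℝ) < (2 + ε) * d) ∧
    ∀ q : ℕ, (2 + ε) * d ≤ q → ∃ A c : ℝ, 0 < c ∧
      (∀ n : ℕ, |Dq q d n| ≤ A * Real.exp (-(c * n))) ∧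
      (∀ (n : ℕ) (u v : Bx d n),
        |(cnt (fun f : Bx d n → Fin q => Proper (BG d n) f ∧ f u = f v) : ℝ) /
            cnt (fun f : Bx d n → Fin q => Proper (BG d n) f) - 1 / q| ≤
          A * Real.exp (-(c * bd u v))) ∧
      (∀ (n : ℕ) (Q : Set (Bx d n)) (σ : Bx d n → Fin q) (w : Bx d n) (r : ℕ),
        (∀ x ∈ Q, r ≤ bd w x) →
        0 < cnt (fun f : Bx d n → Fin q => Proper (BG d n) f ∧ ∀ x ∈ Q, f x = σ x) →
        ∀ b : Fin q,
          |(cnt (fun f : Bx d n → Fin q =>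
              Proper (BG d n) f ∧ (∀ x ∈ Q, f x = σ x) ∧ f w = b) : ℝ) /
            cnt (fun f : Bx d n → Fin q => Proper (BG d n) f ∧ ∀ x ∈ Q, f x = σ x) - 1 / q| ≤
          A * Real.exp (-(c * r))) := by
  intro ε hε
  obtain ⟨d₁, h1⟩ := main_decay hε
  obtain ⟨d₂, h2⟩ := main_pair hε
  obtain ⟨d₃, h3⟩ := main_cond hε
  obtain ⟨d₄, h4⟩ := main_qc hε
  refine ⟨max (max d₁ d₂) (max d₃ d₄), ?_⟩
  intro d hd
  have hd1 : d₁ ≤ d := ((le_max_left _ _).trans (le_max_left _ _)).trans hd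
  have hd2 : d₂ ≤ d := ((le_max_right _ _).trans (le_max_left _ _)).trans hd
  have hd3 : d₃ ≤ d := ((le_max_left _ _).trans (le_max_right _ _)).trans hd
  have hd4 : d₄ ≤ d := ((le_max_right _ _).trans (le_max_right _ _)).trans hd
  refine ⟨(h4 d hd4).2, (h4 d hd4).1, ?_⟩
  intro q hq
  obtain ⟨A₁, c₁, hc1, h1⟩ := h1 d hd1 q hq
  obtain ⟨A₂, c₂, hc2, h2⟩ := h2 d hd2 q hq
  obtain ⟨A₃, c₃, hc3, h3⟩ := h3 d hd3 q hq
  have key : ∀ {X A' c' : ℝ} (t : ℕ), min c₁ (min c₂ c₃) ≤ c' →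
      A' ≤ max |A₁| (max |A₂| |A₃|) → X ≤ A' * Real.exp (-(c' * t)) →
      X ≤ max |A₁| (max |A₂| |A₃|) * Real.exp (-(min c₁ (min c₂ c₃) * t)) := by
    intro X A' c' t hc' hA' hX
    have e1 : Real.exp (-(c' * t)) ≤ Real.exp (-(min c₁ (min c₂ c₃) * t)) :=
      Real.exp_le_exp.2 (neg_le_neg (mul_le_mul_of_nonneg_right hc' (Nat.cast_nonneg t)))
    calc X ≤ A' * Real.exp (-(c' * t)) := hX
      _ ≤ max |A₁| (max |A₂| |A₃|) * Real.exp (-(c' * t)) :=
        mul_le_mul_of_nonneg_right hA' (Real.exp_pos _).le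
      _ ≤ _ := mul_le_mul_of_nonneg_left e1 ((abs_nonneg A₁).trans (le_max_left _ _))
  refine ⟨max |A₁| (max |A₂| |A₃|), min c₁ (min c₂ c₃), lt_min hc1 (lt_min hc2 hc3), ?_, ?_, ?_⟩
  · intro n
    exact key n (min_le_left _ _) ((le_abs_self _).trans (le_max_left _ _)) (h1 n)
  · intro n u v
    exact key (bd u v) ((min_le_right _ _).trans (min_le_left _ _))
      ((le_abs_self _).trans ((le_max_left _ _).trans (le_max_right _ _))) (h2 n u v)
  · intro n Q σ w r hQ hp b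
    exact key r ((min_le_right _ _).trans (min_le_right _ _))
      ((le_abs_self _).trans ((le_max_right _ _).trans (le_max_right _ _))) (h3 n Q σ w r hQ hp b)

end Pool.Agent.Results.MP_2c424f_pr.UpperBoundTwo
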